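import Pool.Agent.Helper89.TQ.Spec

/-!
MP_5465ec_co, Q2, part BRIDGE: winning coalitions are those whose vector is above `a` or `b`.
-/

set_option autoImplicit false

namespace Pool.Agent.Helper5.TQ

open Finset Pool.Agent.R6.Trade Pool.Agent.Helper89.TQ

section
variable {N : Type} [DecidableEq N] {τ : N → Fin 3}

theorem vec_insert {u : N} {T : Finset N} (hu : u ∉ T) (l : Fin 3) :
    vec τ (insert u T) l = vec τ T l + if τ u = l then 1 else 0 := by
  unfold vec
  rw [filter_insert]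
  split_ifs with h
  · rw [card_insert_of_notMem]
    simp [hu]
  · simp

theorem vec_erase {v : N} {T : Finset N} (hv : v ∈ T) (l : Fin 3) :
    vec τ (T.erase v) l + (if τ v = l then 1 else 0) = vec τ T l := by
  have h := vec_insert (τ := τ) (notMem_erase v T) l
  rw [insert_erase hv] at h
  exact h.symm

theorem exists_out [Fintype N] {T : Finset N} {i : Fin 3} (h : vec τ T i < nn τ i) :
    ∃ u, u ∉ T ∧ τ u = i := by
  unfold vec nn at h
  obtain ⟨u, hu, hu'⟩ := exists_mem_notMem_of_card_lt_card h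
  have h1 : τ u = i := (mem_filter.1 hu).2
  exact ⟨u, fun hT => hu' (mem_filter.2 ⟨hT, h1⟩), h1⟩

theorem exists_in {T : Finset N} {j : Fin 3} (h : 0 < vec τ T j) : ∃ v, v ∈ T ∧ τ v = j := by
  unfold vec at h
  obtain ⟨v, hv⟩ := card_pos.1 h
  exact ⟨v, (mem_filter.1 hv).1, (mem_filter.1 hv).2⟩

variable [Fintype N] {W : Finset N → Prop}

theorem add_voter (hmono : ∀ S T : Finset N, S ⊆ T → W S → W T) {T : Finset N} (hT : W T)
    {i : Fin 3} (h : vec τ T i < nn τ i) :
    ∃ T', W T' ∧ ∀ l, vec τ T' l = vec τ T l + if i = l then 1 else 0 := by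
  obtain ⟨u, hu, hui⟩ := exists_out h
  refine ⟨insert u T, hmono _ _ (subset_insert u T) hT, fun l => ?_⟩
  rw [vec_insert hu, hui]

theorem swap_voter (hAt : ∀ u v, AtLeast W u v ↔ τ u ≤ τ v) {T : Finset N} (hT : W T)
    {i j : Fin 3} (hij : i < j) (h : vec τ T i < nn τ i) (hj : 0 < vec τ T j) :
    ∃ T', W T' ∧ ∀ l, vec τ T' l + (if j = l then 1 else 0) =
      vec τ T l + if i = l then 1 else 0 := by
  obtain ⟨u, hu, hui⟩ := exists_out h
  obtain ⟨v, hv, hvj⟩ := exists_in hj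
  have h1 : AtLeast W u v := (hAt u v).2 (by rw [hui, hvj]; exact hij.le)
  have hne : u ∉ T.erase v := fun hh => hu (mem_of_mem_erase hh)
  refine ⟨insert u (T.erase v), h1 (T.erase v) hne (notMem_erase v T) ?_, fun l => ?_⟩
  · rwa [insert_erase hv]
  · rw [vec_insert hne, hui]
    have := vec_erase (τ := τ) hv l
    rw [hvj] at this
    omega

/-- the sum of the partial sums -/
def Ms (x : Fin 3 → ℕ) : ℕ := 3 * x 0 + 2 * x 1 + x 2

theorem eq_of_GE {x y : Fin 3 → ℕ} (h : GE y x) (hM : Ms y ≤ Ms x) : y = x := by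
  obtain ⟨h1, h2, h3⟩ := h
  unfold Ms at hM
  funext l
  fin_cases l <;> simp <;> omega

theorem GE_trans {x y z : Fin 3 → ℕ} (h1 : GE x y) (h2 : GE y z) : GE x z :=
  ⟨h2.1.trans h1.1, h2.2.1.trans h1.2.1, h2.2.2.trans h1.2.2⟩

theorem GE_refl (x : Fin 3 → ℕ) : GE x x := ⟨le_rfl, le_rfl, le_rfl⟩

/-- one step up -/
theorem step (hmono : ∀ S T : Finset N, S ⊆ T → W S → W T)
    (hAt : ∀ u v, AtLeast W u v ↔ τ u ≤ τ v) {T : Finset N} (hT : W T) {y : Fin 3 → ℕ}
    (hy : ∀ i, y i ≤ nn τ i) (hge : GE y (vec τ T)) (hne : y ≠ vec τ T) :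
    ∃ T', W T' ∧ GE y (vec τ T') ∧ Ms (vec τ T) + 1 ≤ Ms (vec τ T') := by
  obtain ⟨h1, h2, h3⟩ := hge
  have hy0 := hy 0
  have hy1 := hy 1
  have hy2 := hy 2
  have hne' : ¬(y 0 = vec τ T 0 ∧ y 1 = vec τ T 1 ∧ y 2 = vec τ T 2) := by
    rintro ⟨e0, e1, e2⟩
    apply hne
    funext l
    fin_cases l
    · exact e0
    · exact e1
    · exact e2
  have hlt01 : (0 : Fin 3) < 1 := by decide
  have hlt02 : (0 : Fin 3) < 2 := by decide
  have hlt12 : (1 : Fin 3) < 2 := by decide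
  have add : ∀ i : Fin 3, vec τ T i < nn τ i → ∃ T', W T' ∧
      vec τ T' 0 = vec τ T 0 + (if i = 0 then 1 else 0) ∧
      vec τ T' 1 = vec τ T 1 + (if i = 1 then 1 else 0) ∧
      vec τ T' 2 = vec τ T 2 + (if i = 2 then 1 else 0) := by
    intro i hi
    obtain ⟨T', hT', h⟩ := add_voter hmono hT hi
    exact ⟨T', hT', h 0, h 1, h 2⟩
  have swp : ∀ i j : Fin 3, i < j → vec τ T i < nn τ i → 0 < vec τ T j → ∃ T', W T' ∧
      vec τ T' 0 + (if j = 0 then 1 else 0) = vec τ T 0 + (if i = 0 then 1 else 0) ∧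
      vec τ T' 1 + (if j = 1 then 1 else 0) = vec τ T 1 + (if i = 1 then 1 else 0) ∧
      vec τ T' 2 + (if j = 2 then 1 else 0) = vec τ T 2 + (if i = 2 then 1 else 0) := by
    intro i j hij hi hj
    obtain ⟨T', hT', h⟩ := swap_voter hAt hT hij hi hj
    exact ⟨T', hT', h 0, h 1, h 2⟩
  by_cases c0 : vec τ T 0 < y 0
  · by_cases c1 : vec τ T 0 + vec τ T 1 < y 0 + y 1
    · by_cases c2 : vec τ T 0 + vec τ T 1 + vec τ T 2 < y 0 + y 1 + y 2
      · obtain ⟨T', hT', e0, e1, e2⟩ := add 0 (by omega)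
        simp at e0 e1 e2
        refine ⟨T', hT', ⟨?_, ?_, ?_⟩, ?_⟩
        · omega
        · omega
        · omega
        · unfold Ms; omega
      · obtain ⟨T', hT', e0, e1, e2⟩ := swp 0 2 hlt02 (by omega) (by omega)
        simp at e0 e1 e2
        refine ⟨T', hT', ⟨?_, ?_, ?_⟩, ?_⟩
        · omega
        · omega
        · omega
        · unfold Ms; omega
    · obtain ⟨T', hT', e0, e1, e2⟩ := swp 0 1 hlt01 (by omega) (by omega)
      simp at e0 e1 e2
      refine ⟨T', hT', ⟨?_, ?_, ?_⟩, ?_⟩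
      · omega
      · omega
      · omega
      · unfold Ms; omega
  · by_cases c1 : vec τ T 0 + vec τ T 1 < y 0 + y 1
    · by_cases c2 : vec τ T 0 + vec τ T 1 + vec τ T 2 < y 0 + y 1 + y 2
      · obtain ⟨T', hT', e0, e1, e2⟩ := add 1 (by omega)
        simp at e0 e1 e2
        refine ⟨T', hT', ⟨?_, ?_, ?_⟩, ?_⟩
        · omega
        · omega
        · omega
        · unfold Ms; omega
      · obtain ⟨T', hT', e0, e1, e2⟩ := swp 1 2 hlt12 (by omega) (by omega)
        simp at e0 e1 e2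
        refine ⟨T', hT', ⟨?_, ?_, ?_⟩, ?_⟩
        · omega
        · omega
        · omega
        · unfold Ms; omega
    · obtain ⟨T', hT', e0, e1, e2⟩ := add 2 (by omega)
      simp at e0 e1 e2
      refine ⟨T', hT', ⟨?_, ?_, ?_⟩, ?_⟩
      · omega
      · omega
      · omega
      · unfold Ms; omega

/-- shift monotonicity -/
theorem shift_mono (hmono : ∀ S T : Finset N, S ⊆ T → W S → W T)
    (hAt : ∀ u v, AtLeast W u v ↔ τ u ≤ τ v) (k : ℕ) : ∀ T S : Finset N,
    Ms (vec τ S) ≤ Ms (vec τ T) + k → W T → GE (vec τ S) (vec τ T) → W S := by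
  have hτ : ∀ a b, τ a = τ b → AtLeast W a b := fun a b h => (hAt a b).2 h.le
  induction k with
  | zero =>
    intro T S hM hT hge
    have h := eq_of_GE hge hM
    exact win_of_vec_eq hmono τ hτ _ T S rfl h.symm hT
  | succ k ih =>
    intro T S hM hT hge
    by_cases hne : vec τ S = vec τ T
    · exact win_of_vec_eq hmono τ hτ _ T S rfl hne.symm hT
    · obtain ⟨T', hT', h1, h2⟩ := step hmono hAt hT (fun i => vec_le τ S i) hge hne
      exact ih T' S (by omega) hT' h1

/-- every winning vector is above a minimal one -/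
theorem exists_min (k : ℕ) : ∀ S : Finset N, Ms (vec τ S) ≤ k → W S →
    ∃ v, MinWin W τ v ∧ GE (vec τ S) v := by
  induction k with
  | zero =>
    intro S hS hW
    refine ⟨vec τ S, ⟨⟨S, hW, rfl⟩, fun S' _ hge => ?_⟩, GE_refl _⟩
    exact (eq_of_GE hge (by omega)).symm
  | succ k ih =>
    intro S hS hW
    by_cases hmin : MinWin W τ (vec τ S)
    · exact ⟨_, hmin, GE_refl _⟩
    · have h1 : ¬ ∀ S', W S' → GE (vec τ S) (vec τ S') → vec τ S' = vec τ S := fun h =>
        hmin ⟨⟨S, hW, rfl⟩, h⟩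
      push Not at h1
      obtain ⟨S', hW', hge, hne⟩ := h1
      have h2 : Ms (vec τ S') < Ms (vec τ S) := by
        by_contra hc
        exact hne (eq_of_GE hge (not_lt.1 hc)).symm
      obtain ⟨v, hv, hge'⟩ := ih S' (by omega) hW'
      exact ⟨v, hv, GE_trans hge hge'⟩

end

/-- the winning coalitions -/
theorem br1 {N : Type} [Fintype N] [DecidableEq N] {W : Finset N → Prop} {τ : N → Fin 3}
    {a b : Fin 3 → ℕ} (hS : IsSimple W) (hAt : ∀ u v, AtLeast W u v ↔ τ u ≤ τ v)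
    (hmin : ∀ v, MinWin W τ v ↔ v = a ∨ v = b) : ∀ S, W S ↔ Win a b (vec τ S) := by
  intro S
  have hmono := hS.2.2
  constructor
  · intro hW
    obtain ⟨v, hv, hge⟩ := exists_min _ S le_rfl hW
    rcases (hmin v).1 hv with h | h
    · left; rw [← h]; exact hge
    · right; rw [← h]; exact hge
  · rintro (h | h)
    · obtain ⟨⟨T, hT, e⟩, _⟩ := (hmin a).2 (Or.inl rfl)
      rw [← e] at h
      exact shift_mono hmono hAt (Ms (vec τ S)) T S (by omega) hT h
    · obtain ⟨⟨T, hT, e⟩, _⟩ := (hmin b).2 (Or.inr rfl)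
      rw [← e] at h
      exact shift_mono hmono hAt (Ms (vec τ S)) T S (by omega) hT h

end Pool.Agent.Helper5.TQ
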