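import Pool.Agent.Helper5.TQ.BR1
import Pool.Agent.Helper8.TQ.BR2

set_option autoImplicit false

namespace Pool.Agent.Helper5.TQ.BRIDGE

open Finset Pool.Agent.R6.Trade Pool.Agent.Helper89.TQ

theorem main : Pool.Agent.Helper89.TQ.S_BRIDGE := by
  intro N _ _ W τ a b hS hsurj hAt hab hmin
  have hW := Pool.Agent.Helper5.TQ.br1 hS hAt hmin
  obtain ⟨h1, h2, h3, h4, h5, h6⟩ :=
    Pool.Agent.Helper8.TQ.BR2.br2 N W τ a b hsurj hAt hab hmin hW
  exact ⟨h1, h2, h3, h4, h5, h6, hW⟩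

end Pool.Agent.Helper5.TQ.BRIDGE
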